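import Mathlib
import Pool.Agent.H970Z.Seq.Heis

set_option autoImplicit false

namespace Pool.Agent.Results.MP_37efd7_lc.NoSequentialTopology

/-- There is a topologizable group on which every Hausdorff group topology has only eventually
constant convergent sequences; hence every sequential Hausdorff group topology on it is
discrete, and none has intermediate sequential order. -/
theorem result : ∃ (G : Type) (_ : Group G),
    (∃ t : TopologicalSpace G, @IsTopologicalGroup G t _ ∧ @T2Space G t ∧
      ¬ @DiscreteTopology G t) ∧
    ∀ [TopologicalSpace G] [IsTopologicalGroup G] [T2Space G],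
      (∀ (u : ℕ → G) (x : G), Filter.Tendsto u Filter.atTop (nhds x) →
        ∀ᶠ n in Filter.atTop, u n = x) ∧
      (SequentialSpace G → DiscreteTopology G) :=
  Pool.Agent.H970Z.Seq.main

end Pool.Agent.Results.MP_37efd7_lc.NoSequentialTopology
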